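import Pool.Agent.H63.NS.P4Def
import Pool.Agent.H27.NS.Shift

/-!
From one step of the PET induction to the claim, and `pet_main` from one step.
-/

set_option autoImplicit false

open MeasureTheory Finset Filter Topology
open scoped BigOperators

namespace Pool.Agent.H63.NS.P4

open Pool.Agent.H63.NS

variable {𝒰 : Ultrafilter ℕ}
variable {Y : Type} [MeasurableSpace Y] {ν : Measure Y} [IsProbabilityMeasure ν]

/-! ### products and coordinates -/

lemma GG_update (F : Flow ν) {ι : Type*} [Fintype ι] (L : ι → (ℕ →₀ ℤ)) (f : ι → BM Y) {d : ℕ}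
    (h : ∀ j, L j d = 0) (z : ℕ → ℝ) (x : ℝ) :
    GG F L f (Function.update z d x) = GG F L f z := by
  unfold GG
  refine prod_congr rfl fun j _ => ?_
  rw [ev_update, h j, Int.cast_zero, zero_mul, add_zero]

lemma GG_repl (F : Flow ν) {ι : Type*} [Fintype ι] (L : ι → (ℕ →₀ ℤ)) (f : ι → BM Y) (c d : ℕ)
    (z : ℕ → ℝ) :
    GG F (fun j => L j - Finsupp.single d (L j d) + Finsupp.single c (L j d)) f z =
      GG F L f (Function.update z d (z c)) := by
  unfold GG
  refine prod_congr rfl fun j _ => ?_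
  rw [ev_add, ev_sub, ev_single, ev_single, ev_update]
  congr 2
  ring

lemma GG_put (F : Flow ν) {ι : Type*} [Fintype ι] (L : ι → (ℕ →₀ ℤ)) (f : ι → BM Y)
    (h0 : ∀ j, L j 0 = 0) (h1 : ∀ j, L j 1 = 0) (u b : ℝ) (z : ℕ → ℝ) :
    GG F L f (put u b z) = GG F L f z := by
  unfold put
  rw [GG_update F L f h1, GG_update F L f h0]

lemma put_update {c : ℕ} (h0 : c ≠ 0) (h1 : c ≠ 1) (u b x : ℝ) (z : ℕ → ℝ) :
    put u b (Function.update z c x) = Function.update (put u b z) c x := by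
  unfold put
  rw [Function.update_comm h0, Function.update_comm h1]

/-- change of the first coordinate of the list by a shift -/
lemma EN_shift {N : ℕ} (hN : 0 < N) {l : List ℕ} {c : ℕ} {Θ : (ℕ → ℝ) → ℝ} {C ε : ℝ}
    (hC : ∀ z, |Θ z| ≤ C) (hε : ∀ z t, |t| ≤ 1 / 2 ^ N → |Θ (ad c t z) - Θ z| ≤ ε) (w : ℝ) :
    |EN N (c :: l) (fun z => Θ (ad c w z)) - EN N (c :: l) Θ| ≤
      2 * C * (|w| + 1) / (N ^ 2 : ℕ) + ε := by
  have hK : ∀ d ∈ l, 0 < (fun _ : ℕ => N ^ 2) d := fun _ _ => by positivity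
  have tr : ∀ (l' : List ℕ) (t : ℝ) (z : ℕ → ℝ),
      AvL (fun _ => N) (fun _ => N ^ 2) l' (fun z => Θ (ad c t z)) z =
        AvL (fun _ => N) (fun _ => N ^ 2) l' Θ (ad c t z) := by
    intro l' t z
    have e : (fun z => Θ (ad c t z)) = fun z => Θ (fun e => z e + (Pi.single c t : ℕ → ℝ) e) := by
      funext z
      unfold ad
      rw [update_add_eq]
    rw [e, AvL_tr]
    unfold ad
    rw [update_add_eq]
  unfold EN
  rw [tr]
  refine a1_shift N (N ^ 2) c (by positivity) (ψ := AvL (fun _ => N) (fun _ => N ^ 2) l Θ)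
    (fun z => abs_avl_le l hK hC z) (fun z t ht => ?_) w 0
  rw [← tr]
  exact abs_avl_sub_le l hK (fun z => hε z t ht) z

theorem cl_of_stp (h𝒰 : (𝒰 : Filter ℕ) ≤ atTop) (D : NumData 𝒰) (F : Flow ν)
    (hUA : ∀ ψ : (ℕ → ℝ) → ℝ, Adm F ψ → UA ψ)
    {ι κ : Type} [Fintype ι] [Fintype κ] (L : ι → (ℕ →₀ ℤ)) (f : ι → BM Y) (hf : ∀ j, F.Good (f j))
    (R : κ → (ℕ →₀ ℤ)) (g : κ → BM Y) (hg : ∀ j, F.Good (g j))
    (l : List ℕ) (c d : ℕ) (hl : (c :: 0 :: 1 :: l).Nodup) (hd : d = 0 ∨ d = 1)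
    (hL : Sup (0 :: 1 :: l) L) (hR : Sup l R) (hst : Stp D F L f l c d)
    (hcl : Cl D (c :: l) (fun z => I ν (GG F R g z *
      GG F (fun j => L j - Finsupp.single d (L j d) + Finsupp.single c (L j d)) f z))) :
    Cl D l (fun z => I ν (GG F R g z * GG F L f z)) := by
  -- coordinates
  have hl' := List.nodup_cons.1 hl
  have hc : c ∉ 0 :: 1 :: l := hl'.1
  have hl2 : (0 :: 1 :: l).Nodup := hl'.2
  have hc0 : c ≠ 0 := fun h => hc (by simp [h])
  have hc1 : c ≠ 1 := fun h => hc (by simp [h])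
  have hcl0 : c ∉ l := fun h => hc (by simp [h])
  have h0l : (0 : ℕ) ∉ l := fun h => (List.nodup_cons.1 hl2).1 (by simp [h])
  have h1l : (1 : ℕ) ∉ l := fun h => (List.nodup_cons.1 (List.nodup_cons.1 hl2).2).1 h
  have hdc : d ≠ c := by rcases hd with rfl | rfl; exacts [hc0.symm, hc1.symm]
  have hLc : ∀ j, L j c = 0 := fun j => hL j c hc
  have hR0 : ∀ j, R j 0 = 0 := fun j => hR j 0 h0l
  have hR1 : ∀ j, R j 1 = 0 := fun j => hR j 1 h1l
  have hRc : ∀ j, R j c = 0 := fun j => hR j c hcl0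
  have hRd : ∀ j, R j d = 0 := by rcases hd with rfl | rfl; exacts [hR0, hR1]
  -- the functions
  set A : (ℕ → ℝ) → BM Y := GG F R g with hA
  set G : (ℕ → ℝ) → BM Y := GG F L f with hG
  set G' : (ℕ → ℝ) → BM Y :=
    GG F (fun j => L j - Finsupp.single d (L j d) + Finsupp.single c (L j d)) f with hG'
  set Ψ : (ℕ → ℝ) → ℝ := fun z => I ν (A z * G z) with hΨ
  set Ψ' : (ℕ → ℝ) → ℝ := fun z => I ν (A z * G' z) with hΨ'
  have admA : AdmG F A := admG_GG F R g hg
  have admG : AdmG F G := admG_GG F L f hf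
  have admG' : AdmG F G' := admG_GG F _ f hf
  have uaΨ : UA Ψ := hUA _ (admA.mul admG).adm
  have uaΨ' : UA Ψ' := hUA _ (admA.mul admG').adm
  have Gc : ∀ z x, G (Function.update z c x) = G z := fun z x => GG_update F L f hLc z x
  have Ac : ∀ z x, A (Function.update z c x) = A z := fun z x => GG_update F R g hRc z x
  have Ad : ∀ z x, A (Function.update z d x) = A z := fun z x => GG_update F R g hRd z x
  have Ap : ∀ u b z, A (put u b z) = A z := fun u b z => GG_put F R g hR0 hR1 u b z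
  have Ψc : ∀ z x, Ψ (Function.update z c x) = Ψ z := fun z x => by
    simp only [hΨ]; rw [Gc, Ac]
  have rep : ∀ z, Ψ' z = Ψ (Function.update z d (z c)) := fun z => by
    simp only [hΨ, hΨ']
    rw [Ad, hG', GG_repl]
  -- equality of the means
  have mean : mn (0 :: 1 :: c :: l) Ψ' 0 = mn (0 :: 1 :: l) Ψ 0 := by
    have hp : (c :: 0 :: 1 :: l).Perm (0 :: 1 :: c :: l) :=
      (List.Perm.swap 0 c (1 :: l)).trans ((List.Perm.swap 1 c l).cons 0)
    have hn : (0 :: 1 :: c :: l).Nodup := hp.nodup_iff.1 hl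
    have hdm : d ∈ 0 :: 1 :: c :: l := by rcases hd with rfl | rfl <;> simp
    have hcm : c ∈ 0 :: 1 :: c :: l := by simp
    -- the common shear
    have uaT : UA (fun z => Ψ (shr d (fun z => z c) z)) :=
      hUA _ ((admA.mul admG).comp (affI_adc' d c)).adm
    have uaT' : UA (fun z => Ψ' (shr c (fun z => z d) z)) :=
      hUA _ ((admA.mul admG').comp (affI_adc' c d)).adm
    have eT : (fun z => Ψ' (shr c (fun z => z d) z)) = fun z => Ψ (shr d (fun z => z c) z) := by
      funext z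
      rw [rep]
      unfold shr
      rw [Function.update_self, Function.update_comm hdc.symm, Ψc, add_comm]
    have s1 := mn_shr (d := d) uaΨ uaT (a := fun z => z c)
      (fun z x => Function.update_of_ne hdc.symm _ _) hn hdm 0
    have s2 := mn_shr (d := c) uaΨ' uaT' (a := fun z => z d)
      (fun z x => Function.update_of_ne hdc _ _) hn hcm 0
    rw [← s2, eT, s1, ← mn_perm hl hp, mn_drop uaΨ Ψc hl]
  -- uniform continuity
  intro φ hφ ε hε
  have bG' : ∀ z y, |(G' z : Y → ℝ) y| ≤ 1 := admG'.bdd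
  have bA : ∀ z y, |(A z : Y → ℝ) y| ≤ 1 := admA.bdd
  have bΨ' : ∀ z, |Ψ' z| ≤ 1 := fun z => abs_I_le_of_bdd ν fun y => by
    rw [BM.mul_ap, abs_mul]
    exact mul_le_one₀ (bA z y) (abs_nonneg _) (bG' z y)
  obtain ⟨δ, hδ, hun⟩ := GG_unif F (fun j => L j - Finsupp.single d (L j d)
    + Finsupp.single c (L j d)) f hf c (ε / 8) (by positivity)
  have unΨ' : ∀ (z : ℕ → ℝ) (t : ℝ), |t| ≤ δ → |Ψ' (ad c t z) - Ψ' z| ≤ ε / 8 := by
    intro z t ht
    have e1 : A (ad c t z) = A z := Ac _ _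
    simp only [hΨ']
    rw [e1]
    exact (abs_I_mul_sub_le (bA z)).trans (hun z t ht)
  obtain ⟨N0, hN0⟩ : ∃ N0 : ℕ, ∀ N ≥ N0, (1 : ℝ) / 2 ^ N ≤ δ := by
    obtain ⟨N0, h⟩ := exists_pow_lt_of_lt_one hδ (by norm_num : (1 / 2 : ℝ) < 1)
    refine ⟨N0, fun N hN => ?_⟩
    have h2 : (1 / 2 : ℝ) ^ N ≤ (1 / 2) ^ N0 :=
      pow_le_pow_of_le_one (by norm_num) (by norm_num) hN
    rw [one_div, ← inv_pow, ← one_div]
    exact h2.trans h.le
  set W : ℝ := |D.C| + 2 with hW
  have hW0 : 0 < W := by positivity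
  obtain ⟨N1, hN1⟩ := exists_nat_gt (2 * (W + 1) / (ε / 8))
  have hs := hst φ hφ (ε ^ 2 / 16) (by positivity)
  have hc' := hcl φ hφ (ε / 4) (by positivity)
  have ev0 : ∀ᶠ N in (𝒰 : Filter ℕ), N0 + N1 + 1 ≤ N := h𝒰 (eventually_ge_atTop _)
  filter_upwards [hs, hc', ev0, D.bdd] with N h1 h2 h3 h4
  have hN : 0 < N := by omega
  have hNr : (range N).Nonempty := by rw [nonempty_range_iff]; exact hN.ne'
  have hN' : (0 : ℝ) < N := Nat.cast_pos.mpr hN
  set w : ℕ → ℝ := fun m => if d = 0 then uu m else D.b N m with hw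
  have wput : ∀ m z, put (uu m) (D.b N m) z d = w m := fun m z => by
    rcases hd with rfl | rfl
    · rw [put_zero]; simp [hw]
    · rw [put_one]; simp [hw]
  have wbd : ∀ m < N, |w m| ≤ W * N := fun m hm => by
    have hb := (h4 m (by omega)).2.2
    have hu : |uu m| ≤ N := by
      unfold uu
      rw [abs_mul, Nat.abs_cast]
      have a1 := Real.abs_sin_le_one (m : ℝ)
      have a2 : (m : ℝ) ≤ N := by exact_mod_cast hm.le
      nlinarith [abs_nonneg (Real.sin m), Nat.cast_nonneg (α := ℝ) m]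
    have e1 : D.C ≤ |D.C| := le_abs_self _
    simp only [hw]
    split_ifs
    · nlinarith [abs_nonneg D.C]
    · nlinarith [abs_nonneg D.C]
  -- step (3)
  have key3 : ∀ m z, Ψ (ad d (z c) (put (uu m) (D.b N m) z)) =
      Ψ' (put (uu m) (D.b N m) (ad c (w m) z)) := by
    intro m z
    have e1 : put (uu m) (D.b N m) (ad c (w m) z) =
        Function.update (put (uu m) (D.b N m) z) c (z c + w m) := by
      unfold ad
      rw [put_update hc0 hc1]
    rw [rep, e1, Function.update_self, Function.update_comm hdc.symm, Ψc]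
    unfold ad
    rw [wput, add_comm]
  -- the functions of the parameters
  set ψ1 : (ℕ → ℝ) → ℝ := fun z => av (range N) fun m => φ N m * Ψ (put (uu m) (D.b N m) z) with hψ1
  set ψ2 : (ℕ → ℝ) → ℝ := fun z => av (range N) fun m => φ N m *
    Ψ (ad d (z c) (put (uu m) (D.b N m) z)) with hψ2
  have a1 : AN D l φ Ψ N = EN N (c :: l) ψ1 := by
    unfold AN EN
    refine (avl_cons_indep (fun z x => ?_) l (by positivity) 0).symm
    refine av_congr fun m _ => ?_
    rw [put_update hc0 hc1, Ψc]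
  have a2 : |EN N (c :: l) ψ1 - EN N (c :: l) ψ2| ≤ ε / 4 := by
    rw [← EN_sub]
    refine abs_le_of_sq_le_sq ?_ (by positivity)
    refine (EN_sq_le _ _ _).trans ?_
    have e0 : (ε / 4) ^ 2 = ε ^ 2 / 16 := by ring
    rw [e0]
    refine (EN_mono N (c :: l) fun z => ?_).trans h1
    have e1 : ψ1 z - ψ2 z = I ν (A z * av (range N) (fun m => φ N m •
      (G (put (uu m) (D.b N m) z) - G (ad d (z c) (put (uu m) (D.b N m) z))))) := by
      simp only [hψ1, hψ2]
      rw [← av_sub]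
      have e2 : A z * av (range N) (fun m => φ N m •
          (G (put (uu m) (D.b N m) z) - G (ad d (z c) (put (uu m) (D.b N m) z)))) =
          av (range N) (fun m => A z * (φ N m •
          (G (put (uu m) (D.b N m) z) - G (ad d (z c) (put (uu m) (D.b N m) z))))) := by
        unfold av
        rw [mul_smul_comm, mul_sum]
      rw [e2, map_av]
      refine av_congr fun m _ => ?_
      simp only [hΨ]
      rw [mul_smul_comm, map_smul, smul_eq_mul, mul_sub, map_sub, Ap]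
      have e3 : A (ad d (z c) (put (uu m) (D.b N m) z)) = A z := by
        unfold ad; rw [Ad, Ap]
      rw [e3]
      ring
    rw [e1]
    exact I_mul_sq_le (bA z)
  have a3 : |EN N (c :: l) ψ2 - AN D (c :: l) φ Ψ' N| ≤ ε / 4 := by
    unfold AN
    simp only [hψ2, key3]
    rw [EN_av, EN_av, ← av_sub]
    refine abs_av_le hNr fun m hm => ?_
    rw [mem_range] at hm
    have e1 := EN_shift (l := l) (c := c) hN
      (Θ := fun z => φ N m * Ψ' (put (uu m) (D.b N m) z)) (C := 1) (ε := ε / 8) (fun z => by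
        rw [abs_mul]
        exact mul_le_one₀ (hφ.bdd N m) (abs_nonneg _) (bΨ' _)) (fun z t ht => by
        rw [← mul_sub, abs_mul]
        have e2 : put (uu m) (D.b N m) (ad c t z) = ad c t (put (uu m) (D.b N m) z) := by
          unfold ad
          rw [put_update hc0 hc1, put_ne _ _ _ hc0 hc1]
        rw [e2]
        have e3 := unΨ' (put (uu m) (D.b N m) z) t (ht.trans (hN0 N (by omega)))
        have e4 := hφ.bdd N m
        nlinarith [abs_nonneg (φ N m), abs_nonneg (Ψ' (ad c t (put (uu m) (D.b N m) z))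
          - Ψ' (put (uu m) (D.b N m) z))]) (w m)
    refine e1.trans ?_
    have e5 : 2 * 1 * (|w m| + 1) / ((N ^ 2 : ℕ) : ℝ) ≤ ε / 8 := by
      push_cast
      rw [div_le_iff₀ (by positivity)]
      have e6 := wbd m hm
      rw [div_lt_iff₀ (by positivity)] at hN1
      have e7 : (N1 : ℝ) ≤ N := by exact_mod_cast (by omega : N1 ≤ N)
      have e8 : (1 : ℝ) ≤ N := by exact_mod_cast hN
      have e9 : 2 * (W + 1) ≤ N * (ε / 8) :=
        hN1.le.trans (mul_le_mul_of_nonneg_right e7 (by positivity))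
      have e10 : 2 * 1 * (|w m| + 1) ≤ 2 * (W + 1) * N := by nlinarith
      calc 2 * 1 * (|w m| + 1) ≤ 2 * (W + 1) * N := e10
        _ ≤ N * (ε / 8) * N := mul_le_mul_of_nonneg_right e9 hN'.le
        _ = ε / 8 * (N : ℝ) ^ 2 := by ring
    linarith
  rw [mean] at h2
  rw [a1]
  have e : EN N (c :: l) ψ1 - av (range N) (φ N) * mn (0 :: 1 :: l) Ψ 0 =
      (EN N (c :: l) ψ1 - EN N (c :: l) ψ2) + (EN N (c :: l) ψ2 - AN D (c :: l) φ Ψ' N) +
      (AN D (c :: l) φ Ψ' N - av (range N) (φ N) * mn (0 :: 1 :: l) Ψ 0) := by ring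
  rw [e]
  refine (abs_add_three _ _ _).trans ?_
  linarith

/-! ### `pet_main` from one step -/

lemma av_bm_ap {ι : Type*} (s : Finset ι) (f : ι → BM Y) (y : Y) :
    ((av s f : BM Y) : Y → ℝ) y = av s fun i => (f i : Y → ℝ) y := by
  unfold av
  rw [BM.smul_ap, BM.sum_ap, smul_eq_mul]

/-- Jensen -/
lemma I_sq_av_le {ι : Type*} (s : Finset ι) (f : ι → BM Y) :
    I ν ((av s f) ^ 2) ≤ av s fun i => I ν ((f i) ^ 2) := by
  rw [← map_av]
  refine I_mono ν fun y => ?_
  rw [BM.pow_ap, av_bm_ap, av_bm_ap]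
  exact av_sq_le s _

lemma I_sq_add_le (A B : BM Y) : I ν ((A + B) ^ 2) ≤ 2 * I ν (A ^ 2) + 2 * I ν (B ^ 2) := by
  have e : 2 * I ν (A ^ 2) + 2 * I ν (B ^ 2) = I ν ((2 : ℝ) • A ^ 2 + (2 : ℝ) • B ^ 2) := by
    rw [map_add, map_smul, map_smul, smul_eq_mul, smul_eq_mul]
  rw [e]
  refine I_mono ν fun y => ?_
  simp only [BM.pow_ap, BM.add_ap, BM.smul_ap]
  nlinarith [sq_nonneg ((A : Y → ℝ) y - (B : Y → ℝ) y)]

theorem pet_main_of (F : Flow ν) {n : ℕ} (e : Fin n → ℤ) (f : Fin n → BM Y) (hf : ∀ j, F.Good (f j))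
    (hst : ∀ 𝒰 : Ultrafilter ℕ, (𝒰 : Filter ℕ) ≤ atTop → ∃ D : NumData 𝒰,
      ∀ [Fintype {j : Fin n // e j ≠ 0}],
        Stp D F (fun j : {j : Fin n // e j ≠ 0} => Finsupp.single 0 (e j.1)) (fun j => f j.1) [] 2 0) :
    ∀ ε : ℝ, 0 < ε → ∃ M : ℕ, ∀ N ≥ M,
      I ν ((av (range N) (fun m => ∏ j, F.T (e j * uu m) (f j)) -
        av (range (N ^ 2 * 2 ^ N)) (fun m => ∏ j, F.T (e j * ((m : ℝ) / 2 ^ N)) (f j))) ^ 2) ≤ ε := by
  classical
  intro ε hε
  by_contra hcon
  push Not at hcon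
  set bad : Set ℕ := {N | ε < I ν ((av (range N) (fun m => ∏ j, F.T (e j * uu m) (f j)) -
        av (range (N ^ 2 * 2 ^ N)) (fun m => ∏ j, F.T (e j * ((m : ℝ) / 2 ^ N)) (f j))) ^ 2)} with hbad
  have hfr : ∃ᶠ N in atTop, N ∈ bad := by
    rw [frequently_atTop]
    intro M
    obtain ⟨N, h1, h2⟩ := hcon M
    exact ⟨N, h1, h2⟩
  have hne : (atTop ⊓ 𝓟 bad).NeBot := frequently_mem_iff_neBot.1 hfr
  set 𝒰 : Ultrafilter ℕ := Ultrafilter.of (atTop ⊓ 𝓟 bad) with h𝒰d
  have h𝒰' : (𝒰 : Filter ℕ) ≤ atTop ⊓ 𝓟 bad := Ultrafilter.of_le _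
  have h𝒰 : (𝒰 : Filter ℕ) ≤ atTop := h𝒰'.trans inf_le_left
  have hb𝒰 : ∀ᶠ N in (𝒰 : Filter ℕ), N ∈ bad := h𝒰'.trans inf_le_right (mem_principal_self bad)
  obtain ⟨D, hD⟩ := hst 𝒰 h𝒰
  have hS := hD (fun _ _ => 1) (SV.one D) (ε / 8) (by positivity)
  -- the products
  set X : ℝ → BM Y := fun u => ∏ j : {j : Fin n // e j ≠ 0}, F.T (e j.1 * u) (f j.1) with hX
  set P : BM Y := ∏ j : {j : Fin n // ¬ e j ≠ 0}, F.T 0 (f j.1) with hP
  have spl : ∀ u : ℝ, ∏ j, F.T (e j * u) (f j) = X u * P := by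
    intro u
    rw [← Fintype.prod_subtype_mul_prod_subtype (fun j => e j ≠ 0)]
    congr 1
    refine prod_congr rfl fun j _ => ?_
    have : e j.1 = 0 := not_not.1 j.2
    rw [this, Int.cast_zero, zero_mul]
  have bP : ∀ y, |(P : Y → ℝ) y| ≤ 1 := bm_prod_bdd _ _ fun j _ => (hf j.1).bddT _
  have bX : ∀ u y, |(X u : Y → ℝ) y| ≤ 1 := fun u => bm_prod_bdd _ _ fun j _ => (hf j.1).bddT _
  have GX : ∀ z, GG F (fun j : {j : Fin n // e j ≠ 0} => Finsupp.single 0 (e j.1))
      (fun j => f j.1) z = X (z 0) := by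
    intro z
    unfold GG
    refine prod_congr rfl fun j _ => ?_
    rw [ev_single]
  obtain ⟨N0, hN0⟩ := av_shift_bm F (fun j : {j : Fin n // e j ≠ 0} => e j.1) (fun j => f j.1)
    (fun j => hf j.1) 1 (ε / 16) (by positivity)
  have ev0 : ∀ᶠ N in (𝒰 : Filter ℕ), N0 + 1 ≤ N := h𝒰 (eventually_ge_atTop _)
  have hfin : ∀ᶠ N in (𝒰 : Filter ℕ), False := by
    filter_upwards [hS, hb𝒰, ev0] with N h1 h2 h3
    have hN : 0 < N := by omega
    have hNr : (range N).Nonempty := by rw [nonempty_range_iff]; exact hN.ne'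
    have hKr : (range (N ^ 2 * 2 ^ N)).Nonempty := by rw [nonempty_range_iff]; positivity
    set s : Finset ℕ := range (N ^ 2 * 2 ^ N) with hs
    set Wn : ℝ → BM Y := fun u => av s fun i => X (u + (i : ℝ) / 2 ^ N) with hWn
    -- the step
    have t1 : av s (fun i => I ν ((av (range N) fun m => X (uu m) - X (uu m + (i : ℝ) / 2 ^ N)) ^ 2))
        ≤ ε / 8 := by
      refine le_of_eq_of_le ?_ h1
      unfold EN
      rw [AvL_cons, AvL_nil]
      unfold A1
      refine av_congr fun i _ => ?_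
      congr 2
      refine av_congr fun m _ => ?_
      rw [one_smul, GX, GX, put_zero]
      unfold ad
      rw [Function.update_self, put_zero, Function.update_self, Pi.zero_apply, zero_add]
    have t2 : I ν ((av (range N) (fun m => X (uu m)) - av (range N) (fun m => Wn (uu m))) ^ 2)
        ≤ ε / 8 := by
      refine le_trans (le_of_eq ?_) ((I_sq_av_le s _).trans t1)
      congr 2
      have e1 : (fun i : ℕ => av (range N) fun m => X (uu m) - X (uu m + (i : ℝ) / 2 ^ N)) =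
          fun i : ℕ => av (range N) (fun m => X (uu m)) -
            av (range N) (fun m => X (uu m + (i : ℝ) / 2 ^ N)) := by
        funext i; rw [← av_sub]
      rw [e1, av_sub, av_const hKr, av_comm]
    have t3 : I ν ((av (range N) (fun m => Wn (uu m)) - Wn 0) ^ 2) ≤ ε / 8 := by
      have e1 : av (range N) (fun m => Wn (uu m)) - Wn 0 =
          av (range N) (fun m => Wn (uu m) - Wn 0) := by
        rw [av_sub, av_const hNr]
      rw [e1]
      refine (I_sq_av_le _ _).trans (av_le hNr fun m hm => ?_)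
      rw [mem_range] at hm
      have bW : ∀ u y, |(Wn u : Y → ℝ) y| ≤ 1 := fun u y => by
        simp only [hWn]
        rw [av_bm_ap]
        exact abs_av_le hKr fun i _ => bX _ y
      have b1 : ∀ y, |((Wn (uu m) - Wn 0 : BM Y) : Y → ℝ) y| ≤ 2 := fun y => by
        rw [BM.sub_ap]
        refine (abs_sub _ _).trans ?_
        linarith [bW (uu m) y, bW 0 y]
      refine (I_sq_le_of_bdd b1).trans ?_
      have hu : |uu m| ≤ 1 * N := by
        unfold uu
        rw [abs_mul, Nat.abs_cast]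
        have a1 := Real.abs_sin_le_one (m : ℝ)
        have a2 : (m : ℝ) ≤ N := by exact_mod_cast hm.le
        nlinarith [abs_nonneg (Real.sin m), Nat.cast_nonneg (α := ℝ) m]
      have h4 := hN0 N (by omega) (uu m) hu
      have e2 : Wn 0 = av (range (N ^ 2 * 2 ^ N)) (fun i => ∏ j : {j : Fin n // e j ≠ 0},
          F.T (e j.1 * ((i : ℝ) / 2 ^ N)) (f j.1)) := by
        simp only [hWn, hX, zero_add, hs]
      rw [e2]
      simp only [hWn, hX, hs]
      linarith
    have t4 : I ν ((av (range N) (fun m => X (uu m)) - Wn 0) ^ 2) ≤ ε / 2 := by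
      have e1 : av (range N) (fun m => X (uu m)) - Wn 0 =
          (av (range N) (fun m => X (uu m)) - av (range N) (fun m => Wn (uu m))) +
          (av (range N) (fun m => Wn (uu m)) - Wn 0) := by abel
      rw [e1]
      refine (I_sq_add_le _ _).trans ?_
      linarith
    have t5 : I ν ((av (range N) (fun m => ∏ j, F.T (e j * uu m) (f j)) -
        av (range (N ^ 2 * 2 ^ N)) (fun m => ∏ j, F.T (e j * ((m : ℝ) / 2 ^ N)) (f j))) ^ 2)
        ≤ ε / 2 := by
      refine le_trans (I_mono ν fun y => ?_) t4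
      simp only [spl]
      rw [BM.pow_ap, BM.pow_ap, BM.sub_ap, BM.sub_ap, av_bm_ap, av_bm_ap, av_bm_ap]
      simp only [BM.mul_ap]
      rw [av_mul_right, av_mul_right, ← sub_mul, mul_pow]
      have e1 : ((Wn 0 : BM Y) : Y → ℝ) y = av (range (N ^ 2 * 2 ^ N))
          (fun m => ((X ((m : ℝ) / 2 ^ N) : BM Y) : Y → ℝ) y) := by
        simp only [hWn]
        rw [av_bm_ap]
        simp only [zero_add, hs]
      rw [e1]
      have b2 : ((P : Y → ℝ) y) ^ 2 ≤ 1 := by
        rw [← sq_abs]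
        have := bP y
        have := abs_nonneg ((P : Y → ℝ) y)
        nlinarith
      exact mul_le_of_le_one_right (sq_nonneg _) b2
    have h5 : ε < ε / 2 := lt_of_lt_of_le h2 t5
    linarith
  exact hfin.exists.elim fun _ h => h

end Pool.Agent.H63.NS.P4
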